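import Pool.Agent.H748R2.KB.TKBN
import Pool.Agent.H748R2.KB.TBM

set_option autoImplicit false

/-!
The cone over a convex body and its order intervals.
-/

open MeasureTheory Set Pointwise

namespace Pool.Agent.TH852.RH

open Pool.Agent.H404R2.TH (CB V)
open Pool.Agent.H748R2.KB

variable {n : ℕ} {K : Set (Fin n → ℝ)}

/-- the cone over `K` placed at height `1`; the height is the coordinate `0` -/
def cone (K : Set (Fin n → ℝ)) : Set (Fin (n + 1) → ℝ) := {u | 0 ≤ u 0 ∧ Fin.tail u ∈ u 0 • K}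

/-- the point of height one over the origin -/
def ce (n : ℕ) : Fin (n + 1) → ℝ := Fin.cons 1 0

@[simp] lemma ce_zero : ce n 0 = 1 := rfl

@[simp] lemma ce_tail : Fin.tail (ce n) = 0 := rfl

lemma tail_add (u v : Fin (n + 1) → ℝ) : Fin.tail (u + v) = Fin.tail u + Fin.tail v := rfl

lemma tail_sub (u v : Fin (n + 1) → ℝ) : Fin.tail (u - v) = Fin.tail u - Fin.tail v := rfl

lemma tail_smul (t : ℝ) (u : Fin (n + 1) → ℝ) : Fin.tail (t • u) = t • Fin.tail u := rfl

lemma mem_cone_cons {s : ℝ} {x : Fin n → ℝ} :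
    (Fin.cons s x : Fin (n + 1) → ℝ) ∈ cone K ↔ 0 ≤ s ∧ x ∈ s • K := by
  unfold cone
  simp [Fin.tail_cons]

lemma cone_add (hK : Convex ℝ K) {u v : Fin (n + 1) → ℝ} (hu : u ∈ cone K) (hv : v ∈ cone K) :
    u + v ∈ cone K := by
  refine ⟨add_nonneg hu.1 hv.1, ?_⟩
  rw [tail_add, Pi.add_apply, hK.add_smul hu.1 hv.1]
  exact add_mem_add hu.2 hv.2

lemma cone_smul {t : ℝ} (ht : 0 ≤ t) {u : Fin (n + 1) → ℝ} (hu : u ∈ cone K) :
    t • u ∈ cone K := by
  refine ⟨mul_nonneg ht hu.1, ?_⟩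
  rw [tail_smul, Pi.smul_apply, smul_eq_mul, ← smul_smul]
  exact smul_mem_smul_set hu.2

lemma cone_zero (hK : K.Nonempty) : (0 : Fin (n + 1) → ℝ) ∈ cone K := by
  refine ⟨le_rfl, ?_⟩
  rw [Pi.zero_apply, zero_smul_set hK]
  rfl

lemma cone_convex (hK : Convex ℝ K) : Convex ℝ (cone K) := by
  intro u hu v hv a b ha hb _
  exact cone_add hK (cone_smul ha hu) (cone_smul hb hv)

lemma continuous_tail : Continuous (Fin.tail : (Fin (n + 1) → ℝ) → (Fin n → ℝ)) :=
  continuous_pi fun i => continuous_apply i.succ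

lemma cone_closed (hK : IsCompact K) : IsClosed (cone K) := by
  haveI : CompactSpace K := isCompact_iff_compactSpace.1 hK
  have h1 : IsClosed {p : (Fin (n + 1) → ℝ) × K | 0 ≤ p.1 0 ∧ Fin.tail p.1 = p.1 0 • (p.2 : Fin n → ℝ)} := by
    refine IsClosed.inter ?_ ?_
    · exact isClosed_le continuous_const ((continuous_apply 0).comp continuous_fst)
    · refine isClosed_eq (continuous_tail.comp continuous_fst) ?_
      exact ((continuous_apply 0).comp continuous_fst).smul (continuous_subtype_val.comp continuous_snd)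
  have h2 := isClosedMap_fst_of_compactSpace _ h1
  convert h2 using 1
  ext u
  constructor
  · rintro ⟨h3, y, hy, h4⟩
    exact ⟨(u, ⟨y, hy⟩), ⟨h3, h4.symm⟩, rfl⟩
  · rintro ⟨⟨u', y⟩, ⟨h3, h4⟩, rfl⟩
    exact ⟨h3, y, y.2, h4.symm⟩

lemma cone_nonneg {u : Fin (n + 1) → ℝ} (hu : u ∈ cone K) : 0 ≤ u 0 := hu.1

lemma sy_cone_compact (hK : IsCompact K) (z : Fin (n + 1) → ℝ) : IsCompact (sy (cone K) z) := by
  obtain ⟨R, hR⟩ := hK.isBounded.subset_closedBall (0 : Fin n → ℝ)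
  refine Metric.isCompact_of_isClosed_isBounded ?_ ?_
  · have h1 := cone_closed hK
    have : sy (cone K) z = cone K ∩ (fun x => z - x) ⁻¹' cone K := by ext x; rfl
    rw [this]
    exact h1.inter (h1.preimage (by fun_prop))
  · refine (Metric.isBounded_closedBall (x := (0 : Fin (n + 1) → ℝ))
      (r := max |z 0| (|z 0| * |R|))).subset ?_
    rintro u ⟨hu, hzu⟩
    have h0 : 0 ≤ u 0 := hu.1
    have h1 : 0 ≤ z 0 - u 0 := hzu.1
    have h2 : u 0 ≤ |z 0| := by
      have := le_abs_self (z 0)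
      linarith
    rw [mem_closedBall_zero_iff, pi_norm_le_iff_of_nonneg (by positivity)]
    intro i
    refine Fin.cases ?_ (fun j => ?_) i
    · rw [Real.norm_eq_abs, abs_of_nonneg h0]
      exact h2.trans (le_max_left _ _)
    · obtain ⟨y, hy, hy2⟩ := hu.2
      have h3 : u j.succ = u 0 * y j := (congrFun hy2 j).symm
      have h4 : ‖y‖ ≤ R := mem_closedBall_zero_iff.1 (hR hy)
      have h5 : |y j| ≤ |R| := by
        have := norm_le_pi_norm y j
        rw [Real.norm_eq_abs] at this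
        exact this.trans (h4.trans (le_abs_self R))
      rw [Real.norm_eq_abs, h3, abs_mul, abs_of_nonneg h0]
      refine le_trans ?_ (le_max_right _ _)
      exact mul_le_mul h2 h5 (abs_nonneg _) (abs_nonneg _)

lemma V_mono' {m : ℕ} {A B : Set (Fin m → ℝ)} (hB : IsCompact B) (h : A ⊆ B) : V A ≤ V B :=
  ENNReal.toReal_mono hB.measure_lt_top.ne (measure_mono h)

lemma V_smul' {m : ℕ} {r : ℝ} (hr : 0 ≤ r) (A : Set (Fin m → ℝ)) : V (r • A) = r ^ m * V A := by
  unfold V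
  rw [Measure.addHaar_smul, ENNReal.toReal_mul, Module.finrank_fin_fun,
    abs_of_nonneg (pow_nonneg hr m), ENNReal.toReal_ofReal (pow_nonneg hr m)]

lemma zero_mem_sy (hK : K.Nonempty) {z : Fin (n + 1) → ℝ} (hz : z ∈ cone K) :
    (0 : Fin (n + 1) → ℝ) ∈ sy (cone K) z :=
  ⟨cone_zero hK, by rw [sub_zero]; exact hz⟩

lemma sy_add_subset (hK : Convex ℝ K) (z w : Fin (n + 1) → ℝ) :
    sy (cone K) z + sy (cone K) w ⊆ sy (cone K) (z + w) := by
  rintro _ ⟨u, hu, v, hv, rfl⟩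
  refine ⟨cone_add hK hu.1 hv.1, ?_⟩
  have e : z + w - (u + v) = (z - u) + (w - v) := by abel
  show z + w - (u + v) ∈ cone K
  rw [e]
  exact cone_add hK hu.2 hv.2

lemma smul_sy_subset {t : ℝ} (ht : 0 ≤ t) (z : Fin (n + 1) → ℝ) :
    t • sy (cone K) z ⊆ sy (cone K) (t • z) := by
  rintro _ ⟨u, hu, rfl⟩
  refine ⟨cone_smul ht hu.1, ?_⟩
  show t • z - t • u ∈ cone K
  rw [← smul_sub]
  exact cone_smul ht hu.2

lemma sy_smul {t : ℝ} (ht : 0 < t) (z : Fin (n + 1) → ℝ) :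
    sy (cone K) (t • z) = t • sy (cone K) z := by
  refine Subset.antisymm ?_ (smul_sy_subset ht.le z)
  have h := smul_sy_subset (K := K) (inv_nonneg.2 ht.le) (t • z)
  rw [smul_smul, inv_mul_cancel₀ ht.ne', one_smul] at h
  intro u hu
  rw [mem_smul_set_iff_inv_smul_mem₀ ht.ne']
  exact h (smul_mem_smul_set hu)

/-- the volume of the order interval `[0, z]` -/
noncomputable def W (K : Set (Fin n → ℝ)) (z : Fin (n + 1) → ℝ) : ℝ := V (sy (cone K) z)

lemma W_nonneg (z : Fin (n + 1) → ℝ) : 0 ≤ W K z := ENNReal.toReal_nonneg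

lemma W_smul {t : ℝ} (ht : 0 < t) (z : Fin (n + 1) → ℝ) :
    W K (t • z) = t ^ (n + 1) * W K z := by
  unfold W
  rw [sy_smul ht, V_smul' ht.le]

lemma W_add (hK : IsCompact K) (hc : Convex ℝ K) (hne : K.Nonempty) {z w : Fin (n + 1) → ℝ}
    (hz : z ∈ cone K) (hw : w ∈ cone K) {a b : ℝ} (ha : 0 ≤ a) (hb : 0 ≤ b)
    (haz : a ^ (n + 1) ≤ W K z) (hbw : b ^ (n + 1) ≤ W K w) :
    (a + b) ^ (n + 1) ≤ W K (z + w) := by
  have h := t_BM (n + 1) (sy (cone K) z) (sy (cone K) w) (sy_cone_compact hK z)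
    (sy_cone_compact hK w) ⟨0, zero_mem_sy hne hz⟩ ⟨0, zero_mem_sy hne hw⟩ a b ha hb haz hbw
  exact h.trans (V_mono' (sy_cone_compact hK _) (sy_add_subset hc z w))

lemma W_mono (hK : IsCompact K) (hc : Convex ℝ K) {z w : Fin (n + 1) → ℝ} (hw : w - z ∈ cone K) :
    W K z ≤ W K w := by
  refine V_mono' (sy_cone_compact hK _) ?_
  rintro u ⟨h1, h2⟩
  refine ⟨h1, ?_⟩
  have e : w - u = (z - u) + (w - z) := by abel
  show w - u ∈ cone K
  rw [e]
  exact cone_add hc h2 hw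

lemma ce_mem_interior (h0 : (0 : Fin n → ℝ) ∈ interior K) : ce n ∈ interior (cone K) := by
  obtain ⟨r, hr, hrK⟩ := Metric.isOpen_iff.1 isOpen_interior 0 h0
  rw [mem_interior_iff_mem_nhds, Metric.mem_nhds_iff]
  refine ⟨min (1 / 2) (r / 2), by positivity, ?_⟩
  intro u hu
  rw [Metric.mem_ball, dist_eq_norm] at hu
  have h1 : ‖(u - ce n) 0‖ < 1 / 2 :=
    (norm_le_pi_norm _ 0).trans_lt (hu.trans_le (min_le_left _ _))
  have h2 : 1 / 2 < u 0 := by
    rw [Pi.sub_apply, ce_zero, Real.norm_eq_abs, abs_lt] at h1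
    linarith [h1.1]
  have h3 : ‖Fin.tail u‖ < r / 2 := by
    rw [pi_norm_lt_iff (by positivity)]
    intro i
    have h4 := (norm_le_pi_norm (u - ce n) i.succ).trans_lt (hu.trans_le (min_le_right _ _))
    have h5 : (u - ce n) i.succ = Fin.tail u i := by
      show u i.succ - (Fin.cons 1 0 : Fin (n + 1) → ℝ) i.succ = u i.succ
      simp
    rwa [h5] at h4
  refine ⟨by linarith, ?_⟩
  have h6 : (u 0)⁻¹ • Fin.tail u ∈ K := by
    refine interior_subset (hrK ?_)
    rw [mem_ball_zero_iff, norm_smul, Real.norm_eq_abs, abs_of_pos (by positivity)]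
    have h7 : (u 0)⁻¹ < 2 := by
      rw [inv_lt_comm₀ (by linarith) (by norm_num)]
      linarith
    have h8 : (u 0)⁻¹ * ‖Fin.tail u‖ ≤ 2 * ‖Fin.tail u‖ :=
      mul_le_mul_of_nonneg_right h7.le (norm_nonneg _)
    linarith
  refine ⟨_, h6, ?_⟩
  show u 0 • (u 0)⁻¹ • Fin.tail u = Fin.tail u
  rw [smul_smul, mul_inv_cancel₀ (by linarith), one_smul]

lemma ce_mem (h0 : (0 : Fin n → ℝ) ∈ interior K) : ce n ∈ cone K :=
  interior_subset (ce_mem_interior h0)

lemma W_ce_pos (hK : IsCompact K) (h0 : (0 : Fin n → ℝ) ∈ interior K) : 0 < W K (ce n) := by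
  have hC := cone_closed hK
  have h1 : (1 / 2 : ℝ) • ce n ∈ interior (cone K) := by
    have h2 : (1 / 2 : ℝ) • ce n ∈ (1 / 2 : ℝ) • interior (cone K) :=
      smul_mem_smul_set (ce_mem_interior h0)
    rw [← interior_smul₀ (by norm_num)] at h2
    refine interior_mono ?_ h2
    rintro _ ⟨u, hu, rfl⟩
    exact cone_smul (by norm_num) hu
  have ho : IsOpen (interior (cone K) ∩ (fun u => ce n - u) ⁻¹' interior (cone K)) :=
    isOpen_interior.inter (isOpen_interior.preimage (by fun_prop))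
  have hne : (interior (cone K) ∩ (fun u => ce n - u) ⁻¹' interior (cone K)).Nonempty := by
    refine ⟨(1 / 2 : ℝ) • ce n, h1, ?_⟩
    have e : ce n - (1 / 2 : ℝ) • ce n = (1 / 2 : ℝ) • ce n := by
      rw [sub_eq_iff_eq_add, ← add_smul]
      norm_num
    show ce n - (1 / 2 : ℝ) • ce n ∈ interior (cone K)
    rw [e]
    exact h1
  have hpos : 0 < volume (interior (cone K) ∩ (fun u => ce n - u) ⁻¹' interior (cone K)) :=
    ho.measure_pos _ hne
  have hsub : interior (cone K) ∩ (fun u => ce n - u) ⁻¹' interior (cone K) ⊆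
      sy (cone K) (ce n) := fun u hu => ⟨interior_subset hu.1, interior_subset hu.2⟩
  exact ENNReal.toReal_pos (hpos.trans_le (measure_mono hsub)).ne'
    (sy_cone_compact hK _).measure_ne_top

end Pool.Agent.TH852.RH
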