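import Pool.Agent.TH852.RH.Cone

set_option autoImplicit false

/-!
A linear functional `f`, positive on the cone, such that the order interval `[0, 2 e]` is the
largest one among the `[0, z]` with `f z ≤ 2`, where `f e = 1`.
-/

open MeasureTheory Set Pointwise

namespace Pool.Agent.TH852.RH

open Pool.Agent.H404R2.TH (CB V)
open Pool.Agent.H748R2.KB

variable {n : ℕ} {K : Set (Fin n → ℝ)}

/-- the points of the cone with a larger order interval than `e` -/
def big (K : Set (Fin n → ℝ)) : Set (Fin (n + 1) → ℝ) := {z | z ∈ cone K ∧ W K (ce n) < W K z}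

lemma exists_root {m : ℕ} (hm : m ≠ 0) {r s : ℝ} (hr : 0 ≤ r) (h : r ^ m < s) :
    ∃ t, r < t ∧ t ^ m ≤ s := by
  have hs : 0 ≤ s := (pow_nonneg hr m).trans h.le
  refine ⟨s ^ ((m : ℝ)⁻¹), ?_, ?_⟩
  · by_contra hle
    rw [not_lt] at hle
    have h1 : (s ^ ((m : ℝ)⁻¹)) ^ m ≤ r ^ m := pow_le_pow_left₀ (Real.rpow_nonneg hs _) hle m
    rw [Real.rpow_inv_natCast_pow hs hm] at h1
    linarith
  · rw [Real.rpow_inv_natCast_pow hs hm]

lemma big_convex (hK : IsCompact K) (hc : Convex ℝ K) (hne : K.Nonempty) :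
    Convex ℝ (big K) := by
  intro z hz w hw a b ha hb hab
  refine ⟨cone_convex hc hz.1 hw.1 ha hb hab, ?_⟩
  rcases ha.eq_or_lt with rfl | ha0
  · have : b = 1 := by linarith
    subst this
    simpa using hw.2
  rcases hb.eq_or_lt with rfl | hb0
  · have : a = 1 := by linarith
    subst this
    simpa using hz.2
  set r := (W K (ce n)) ^ (((n + 1 : ℕ) : ℝ)⁻¹) with hr
  have hr0 : 0 ≤ r := Real.rpow_nonneg (W_nonneg _) _
  have hrp : r ^ (n + 1) = W K (ce n) := Real.rpow_inv_natCast_pow (W_nonneg _) n.succ_ne_zero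
  obtain ⟨t, ht, ht2⟩ := exists_root n.succ_ne_zero hr0 (hrp.trans_lt hz.2)
  obtain ⟨t', ht', ht2'⟩ := exists_root n.succ_ne_zero hr0 (hrp.trans_lt hw.2)
  have h1 : (a * t) ^ (n + 1) ≤ W K (a • z) := by
    rw [W_smul ha0, mul_pow]
    exact mul_le_mul_of_nonneg_left ht2 (by positivity)
  have h2 : (b * t') ^ (n + 1) ≤ W K (b • w) := by
    rw [W_smul hb0, mul_pow]
    exact mul_le_mul_of_nonneg_left ht2' (by positivity)
  have h3 := W_add hK hc hne (cone_smul ha hz.1) (cone_smul hb hw.1)
    (mul_nonneg ha (hr0.trans ht.le)) (mul_nonneg hb (hr0.trans ht'.le)) h1 h2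
  have h4 : r < a * t + b * t' := by
    have h5 : a * r < a * t := mul_lt_mul_of_pos_left ht ha0
    have h6 : b * r < b * t' := mul_lt_mul_of_pos_left ht' hb0
    nlinarith
  have h5 : r ^ (n + 1) < (a * t + b * t') ^ (n + 1) :=
    pow_lt_pow_left₀ h4 hr0 n.succ_ne_zero
  rw [hrp] at h5
  exact h5.trans_le h3

/-- the functional -/
theorem exists_func (hK : IsCompact K) (hc : Convex ℝ K) (h0 : (0 : Fin n → ℝ) ∈ interior K) :
    ∃ f : (Fin (n + 1) → ℝ) →L[ℝ] ℝ, f (ce n) = 1 ∧ (∀ u ∈ cone K, 0 ≤ f u) ∧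
      (∀ z ∈ cone K, f z ≤ 2 → W K z ≤ W K ((2 : ℝ) • ce n)) ∧
      ∀ y ∈ K, 0 < f (Fin.cons 1 y) := by
  have hne : K.Nonempty := ⟨0, interior_subset h0⟩
  have hW : 0 < W K (ce n) := W_ce_pos hK h0
  have hbig2 : (2 : ℝ) • ce n ∈ big K := by
    refine ⟨cone_smul (by norm_num) (ce_mem h0), ?_⟩
    rw [W_smul (by norm_num)]
    have : (1 : ℝ) < 2 ^ (n + 1) := one_lt_pow₀ (by norm_num) n.succ_ne_zero
    nlinarith
  have hO : IsOpen (big K + interior (cone K)) := isOpen_interior.add_left
  have hOc : Convex ℝ (big K + interior (cone K)) :=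
    (big_convex hK hc hne).add (cone_convex hc).interior
  have hnot : ce n ∉ big K + interior (cone K) := by
    rintro ⟨a, ha, d, hd, had⟩
    have h1 : W K a ≤ W K (ce n) := by
      refine W_mono hK hc ?_
      have : ce n - a = d := by rw [← had]; simp
      rw [this]
      exact interior_subset hd
    exact absurd ha.2 (not_lt.2 h1)
  obtain ⟨f0, hf0⟩ := geometric_hahn_banach_open_point hOc hO hnot
  -- `f = - f0`
  set f := -f0 with hf
  have hfO : ∀ a ∈ big K, ∀ d ∈ interior (cone K), f (ce n) < f a + f d := by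
    intro a ha d hd
    have := hf0 (a + d) (add_mem_add ha hd)
    rw [map_add] at this
    simp only [hf, neg_apply]
    linarith
  have hint_smul : ∀ t : ℝ, 0 < t → ∀ d ∈ interior (cone K), t • d ∈ interior (cone K) := by
    intro t ht d hd
    have h2 : t • d ∈ t • interior (cone K) := smul_mem_smul_set hd
    rw [← interior_smul₀ ht.ne'] at h2
    refine interior_mono ?_ h2
    rintro _ ⟨u, hu, rfl⟩
    exact cone_smul ht.le hu
  have hfd : ∀ d ∈ interior (cone K), 0 ≤ f d := by
    intro d hd
    by_contra hneg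
    rw [not_le] at hneg
    -- choose `t` large
    set t : ℝ := (|f (ce n)| + 1) / (-(f d)) with ht
    have ht0 : 0 < t := by
      apply div_pos
      · positivity
      · linarith
    have h1 := hfO _ hbig2 _ (hint_smul t ht0 d hd)
    rw [map_smul, map_smul, smul_eq_mul, smul_eq_mul] at h1
    have h2 : t * f d = -(|f (ce n)| + 1) := by
      rw [ht]
      field_simp
      have h4 : f d ≠ 0 := hneg.ne
      field_simp
    rw [h2] at h1
    have h3 := le_abs_self (f (ce n))
    linarith
  have hfc0 : 0 ≤ f (ce n) := hfd _ (ce_mem_interior h0)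
  have hfa : ∀ a ∈ big K, f (ce n) ≤ f a := by
    intro a ha
    by_contra hlt
    rw [not_le] at hlt
    set t : ℝ := (f (ce n) - f a) / (2 * (f (ce n) + 1)) with ht
    have ht0 : 0 < t := div_pos (by linarith) (by linarith)
    have h1 := hfO a ha _ (hint_smul t ht0 _ (ce_mem_interior h0))
    rw [map_smul, smul_eq_mul] at h1
    have h2 : t * f (ce n) ≤ (f (ce n) - f a) / 2 := by
      rw [ht, div_mul_eq_mul_div, div_le_div_iff₀ (by linarith) (by norm_num)]
      nlinarith
    linarith
  have hfc : 0 < f (ce n) := by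
    rcases hfc0.eq_or_lt with h | h
    · exfalso
      -- `f = 0`
      have hz : ∀ v, f v = 0 := by
        intro v
        obtain ⟨r, hr, hrC⟩ := Metric.isOpen_iff.1 isOpen_interior _ (ce_mem_interior h0)
        set t : ℝ := r / (2 * (‖v‖ + 1)) with ht
        have ht0 : 0 < t := by positivity
        have htv : ‖t • v‖ < r := by
          rw [norm_smul, Real.norm_eq_abs, abs_of_pos ht0, ht, div_mul_eq_mul_div,
            div_lt_iff₀ (by positivity)]
          have := norm_nonneg v
          nlinarith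
        have h1 : ce n + t • v ∈ interior (cone K) := by
          apply hrC
          rw [Metric.mem_ball, dist_eq_norm, add_sub_cancel_left]
          exact htv
        have h2 : ce n - t • v ∈ interior (cone K) := by
          apply hrC
          rw [Metric.mem_ball, dist_eq_norm, sub_sub_cancel_left, norm_neg]
          exact htv
        have h3 := hfd _ h1
        have h4 := hfd _ h2
        rw [map_add, map_smul, smul_eq_mul, ← h] at h3
        rw [map_sub, map_smul, smul_eq_mul, ← h] at h4
        have h5 : t * f v = 0 := by linarith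
        rcases mul_eq_zero.1 h5 with h6 | h6
        · exact absurd h6 ht0.ne'
        · exact h6
      have h7 := hfO _ hbig2 _ (ce_mem_interior h0)
      simp [hz] at h7
    · exact h
  have hfC : ∀ u ∈ cone K, 0 ≤ f u := by
    intro u hu
    have hcl : cone K ⊆ closure (interior (cone K)) := by
      rw [(cone_convex hc).closure_interior_eq_closure_of_nonempty_interior
        ⟨_, ce_mem_interior h0⟩]
      exact subset_closure
    have hclosed : IsClosed {u | 0 ≤ f u} := isClosed_le continuous_const f.continuous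
    exact closure_minimal (fun d hd => hfd d hd) hclosed (hcl hu)
  have hkey : ∀ z ∈ cone K, f z ≤ 2 * f (ce n) → W K z ≤ W K ((2 : ℝ) • ce n) := by
    intro z hz hfz
    by_contra hlt
    rw [not_le] at hlt
    have hz' : W K (ce n) < W K ((1 / 2 : ℝ) • z) := by
      rw [W_smul (by norm_num)] at hlt ⊢
      have e : (1 / 2 : ℝ) ^ (n + 1) * 2 ^ (n + 1) = 1 := by
        rw [← mul_pow]; norm_num
      have hp : (0 : ℝ) < (1 / 2) ^ (n + 1) := by positivity
      calc W K (ce n) = (1 / 2 : ℝ) ^ (n + 1) * (2 ^ (n + 1) * W K (ce n)) := by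
            rw [← mul_assoc, e, one_mul]
        _ < _ := mul_lt_mul_of_pos_left hlt hp
    -- a slightly smaller multiple is still big
    set w := (1 / 2 : ℝ) • z with hw
    have hwc : w ∈ cone K := cone_smul (by norm_num) hz
    have hWw : 0 < W K w := hW.trans hz'
    have hrat : (W K (ce n)) / W K w < 1 := (div_lt_one hWw).2 hz'
    obtain ⟨t, ht0, ht1, ht2⟩ : ∃ t : ℝ, 0 < t ∧ t < 1 ∧ W K (ce n) / W K w < t ^ (n + 1) := by
      set q := W K (ce n) / W K w with hq
      have hq0 : 0 ≤ q := div_nonneg hW.le hWw.le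
      have hcont : Filter.Tendsto (fun t : ℝ => t ^ (n + 1)) (nhdsWithin 1 (Iio 1)) (nhds 1) := by
        have : Filter.Tendsto (fun t : ℝ => t ^ (n + 1)) (nhds 1) (nhds ((1 : ℝ) ^ (n + 1))) :=
          (continuous_pow (n + 1)).tendsto 1
        rw [one_pow] at this
        exact this.mono_left nhdsWithin_le_nhds
      have h1 := hcont.eventually_const_lt hrat
      have h2 : ∀ᶠ t in nhdsWithin (1 : ℝ) (Iio 1), t < 1 := eventually_mem_nhdsWithin
      have h3 : ∀ᶠ t in nhdsWithin (1 : ℝ) (Iio 1), 0 < t :=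
        nhdsWithin_le_nhds (lt_mem_nhds (by norm_num))
      obtain ⟨t, h4, h5, h6⟩ := (h1.and (h2.and h3)).exists
      exact ⟨t, h6, h5, h4⟩
    have hb : t • w ∈ big K := by
      refine ⟨cone_smul ht0.le hwc, ?_⟩
      rw [W_smul ht0]
      rwa [div_lt_iff₀ hWw] at ht2
    have h3 := hfa _ hb
    rw [map_smul, hw, map_smul, smul_eq_mul, smul_eq_mul] at h3
    have h4 : 1 / 2 * f z ≤ f (ce n) := by linarith
    have h5 : t * (1 / 2 * f z) ≤ t * f (ce n) := mul_le_mul_of_nonneg_left h4 ht0.le
    nlinarith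
  -- positivity
  have hpos : ∀ y ∈ K, 0 < f (Fin.cons 1 y) := by
    intro y hy
    have hmem : (Fin.cons 1 y : Fin (n + 1) → ℝ) ∈ cone K := by
      rw [mem_cone_cons]
      exact ⟨zero_le_one, by rwa [one_smul]⟩
    rcases (hfC _ hmem).eq_or_lt with h | h
    · exfalso
      set u : Fin (n + 1) → ℝ := Fin.cons 1 y with hu
      have h1 := hkey ((2 : ℝ) • (ce n + (2 : ℝ) • u))
        (cone_smul (by norm_num) (cone_add hc (ce_mem h0) (cone_smul (by norm_num) hmem))) (by
          rw [map_smul, map_add, map_smul, ← h]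
          simp)
      rw [W_smul (by norm_num), W_smul (by norm_num)] at h1
      have h2 : W K (ce n + (2 : ℝ) • u) ≤ W K (ce n) := by
        have hp : (0 : ℝ) < 2 ^ (n + 1) := by positivity
        exact le_of_mul_le_mul_left h1 hp
      -- two disjoint copies
      have hA := sy_cone_compact hK (ce n)
      have hsub : sy (cone K) (ce n) ∪ ((2 : ℝ) • u +ᵥ sy (cone K) (ce n)) ⊆
          sy (cone K) (ce n + (2 : ℝ) • u) := by
        rintro v (hv | ⟨v, hv, rfl⟩)
        · refine ⟨hv.1, ?_⟩
          have e : ce n + (2 : ℝ) • u - v = (ce n - v) + (2 : ℝ) • u := by abel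
          show ce n + (2 : ℝ) • u - v ∈ cone K
          rw [e]
          exact cone_add hc hv.2 (cone_smul (by norm_num) hmem)
        · refine ⟨cone_add hc (cone_smul (by norm_num) hmem) hv.1, ?_⟩
          have e : ce n + (2 : ℝ) • u - ((2 : ℝ) • u + v) = ce n - v := by abel
          show ce n + (2 : ℝ) • u - ((2 : ℝ) • u + v) ∈ cone K
          rw [e]
          exact hv.2
      have hdisj : Disjoint (sy (cone K) (ce n)) ((2 : ℝ) • u +ᵥ sy (cone K) (ce n)) := by
        rw [Set.disjoint_left]
        rintro v hv ⟨w, hw, hwv⟩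
        have h3 : 0 ≤ (ce n - v) 0 := hv.2.1
        have h4 : 0 ≤ w 0 := hw.1.1
        have h5 : v 0 = 2 * u 0 + w 0 := by
          rw [← hwv]
          simp [vadd_eq_add]
        have h6 : u 0 = 1 := by rw [hu]; simp
        rw [Pi.sub_apply, ce_zero] at h3
        rw [h6] at h5
        linarith
      have h3 : volume (sy (cone K) (ce n)) + volume (sy (cone K) (ce n)) ≤
          volume (sy (cone K) (ce n + (2 : ℝ) • u)) := by
        have h4 := measure_union (μ := volume) hdisj (hA.vadd ((2 : ℝ) • u)).measurableSet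
        rw [measure_vadd] at h4
        rw [← h4]
        exact measure_mono hsub
      have h5 := ENNReal.toReal_mono (sy_cone_compact hK _).measure_ne_top h3
      rw [ENNReal.toReal_add hA.measure_ne_top hA.measure_ne_top] at h5
      have h6 : W K (ce n) + W K (ce n) ≤ W K (ce n + (2 : ℝ) • u) := h5
      linarith
    · exact h
  refine ⟨(f (ce n))⁻¹ • f, ?_, ?_, ?_, ?_⟩
  · show (f (ce n))⁻¹ * f (ce n) = 1
    exact inv_mul_cancel₀ hfc.ne'
  · intro u hu
    exact mul_nonneg (inv_nonneg.2 hfc.le) (hfC u hu)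
  · intro z hz h
    refine hkey z hz ?_
    have h' : (f (ce n))⁻¹ * f z ≤ 2 := h
    rw [inv_mul_le_iff₀ hfc] at h'
    linarith
  · intro y hy
    exact mul_pos (inv_pos.2 hfc) (hpos y hy)

end Pool.Agent.TH852.RH
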