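import Pool.Agent.TH852.RH.Cone

set_option autoImplicit false

/-!
Volumes by slices.
-/

open MeasureTheory Set Pointwise
open scoped ENNReal

namespace Pool.Agent.TH852.RH

open Pool.Agent.H404R2.TH (CB V)
open Pool.Agent.H748R2.KB

variable {n : ℕ} {K : Set (Fin n → ℝ)}

lemma meas_cons : Measurable (fun p : ℝ × (Fin n → ℝ) => (Fin.cons p.1 p.2 : Fin (n + 1) → ℝ)) := by
  refine measurable_pi_lambda _ fun i => ?_
  refine Fin.cases ?_ (fun j => ?_) i
  · simpa using measurable_fst
  · exact (measurable_pi_apply j).comp measurable_snd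

lemma cont_cons : Continuous (fun p : ℝ × (Fin n → ℝ) => (Fin.cons p.1 p.2 : Fin (n + 1) → ℝ)) := by
  refine continuous_pi fun i => ?_
  refine Fin.cases ?_ (fun j => ?_) i
  · simpa using continuous_fst
  · exact (continuous_apply j).comp continuous_snd

/-- volume as a product -/
lemma vol_prod {S : Set (Fin (n + 1) → ℝ)} (hS : MeasurableSet S) :
    volume S = (volume : Measure (ℝ × (Fin n → ℝ)))
      ((fun p : ℝ × (Fin n → ℝ) => (Fin.cons p.1 p.2 : Fin (n + 1) → ℝ)) ⁻¹' S) := by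
  have h := (volume_preserving_piFinSuccAbove (fun _ : Fin (n + 1) => ℝ) 0).symm
  have h2 := h.measure_preimage hS.nullMeasurableSet
  rw [← h2]
  congr 1
  ext p
  rw [mem_preimage, mem_preimage]
  have e : (MeasurableEquiv.piFinSuccAbove (fun _ : Fin (n + 1) => ℝ) 0).symm p =
      (Fin.cons p.1 p.2 : Fin (n + 1) → ℝ) := by
    funext i
    refine Fin.cases ?_ (fun j => ?_) i
    · simp [MeasurableEquiv.piFinSuccAbove]
    · simp [MeasurableEquiv.piFinSuccAbove]
  rw [e]

/-- slices by the height -/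
lemma vol_slice {S : Set (Fin (n + 1) → ℝ)} (hS : MeasurableSet S) :
    volume S = ∫⁻ s : ℝ, volume {x : Fin n → ℝ | (Fin.cons s x : Fin (n + 1) → ℝ) ∈ S} := by
  rw [vol_prod hS, Measure.volume_eq_prod, Measure.prod_apply (meas_cons hS)]
  rfl

/-- slices by `height + g` -/
lemma vol_shear {S : Set (Fin (n + 1) → ℝ)} (hS : MeasurableSet S) {g : (Fin n → ℝ) → ℝ}
    (hg : Measurable g) :
    volume S = ∫⁻ r : ℝ, volume {x : Fin n → ℝ | (Fin.cons (r - g x) x : Fin (n + 1) → ℝ) ∈ S} := by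
  have h1 : volume S = ∫⁻ x : Fin n → ℝ, ∫⁻ s : ℝ,
      S.indicator (fun _ => (1 : ℝ≥0∞)) (Fin.cons s x) := by
    rw [vol_prod hS, Measure.volume_eq_prod, Measure.prod_apply_symm (meas_cons hS)]
    refine lintegral_congr fun x => ?_
    rw [← lintegral_indicator_one (measurable_prodMk_right (y := x) (meas_cons hS))]
    rfl
  have hm : Measurable (fun p : (Fin n → ℝ) × ℝ =>
      S.indicator (fun _ => (1 : ℝ≥0∞)) (Fin.cons (p.2 - g p.1) p.1)) := by
    have h2 : Measurable (S.indicator (fun _ => (1 : ℝ≥0∞))) := measurable_const.indicator hS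
    exact h2.comp (meas_cons.comp ((measurable_snd.sub (hg.comp measurable_fst)).prodMk
      measurable_fst))
  have h3 : volume S = ∫⁻ x : Fin n → ℝ, ∫⁻ r : ℝ,
      S.indicator (fun _ => (1 : ℝ≥0∞)) (Fin.cons (r - g x) x) := by
    rw [h1]
    refine lintegral_congr fun x => ?_
    exact (lintegral_sub_right_eq_self
      (fun s : ℝ => S.indicator (fun _ => (1 : ℝ≥0∞)) (Fin.cons s x : Fin (n + 1) → ℝ)) (g x)).symm
  rw [h3, lintegral_lintegral_swap hm.aemeasurable]
  refine lintegral_congr fun r => ?_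
  have h4 : MeasurableSet {x : Fin n → ℝ | (Fin.cons (r - g x) x : Fin (n + 1) → ℝ) ∈ S} :=
    (meas_cons.comp ((measurable_const.sub hg).prodMk measurable_id)) hS
  rw [← lintegral_indicator_one h4]
  rfl

lemma lint_pow (m : ℕ) {a : ℝ} (ha : 0 ≤ a) :
    ∫⁻ r in Ioc (0 : ℝ) a, ENNReal.ofReal (r ^ m) = ENNReal.ofReal (a ^ (m + 1) / (m + 1)) := by
  rw [← ofReal_integral_eq_lintegral_ofReal]
  · rw [← intervalIntegral.integral_of_le ha, integral_pow]
    simp
  · exact (continuous_pow m).integrableOn_Ioc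
  · refine (ae_restrict_iff' measurableSet_Ioc).2 (Filter.Eventually.of_forall fun r hr => ?_)
    exact pow_nonneg hr.1.le m

/-- a lower bound for the volume from slices containing dilates -/
lemma vol_ge_of_slices {S : Set (Fin (n + 1) → ℝ)} (hS : MeasurableSet S) {g : (Fin n → ℝ) → ℝ}
    (hg : Measurable g) {M : Set (Fin n → ℝ)}
    (h : ∀ r ∈ Ioc (0 : ℝ) 1, ∀ x ∈ M, (Fin.cons (r - g (r • x)) (r • x) : Fin (n + 1) → ℝ) ∈ S) :
    ENNReal.ofReal (1 / (n + 1)) * volume M ≤ volume S := by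
  rw [vol_shear hS hg]
  calc ENNReal.ofReal (1 / (n + 1)) * volume M
      = ∫⁻ r in Ioc (0 : ℝ) 1, ENNReal.ofReal (r ^ n) * volume M := by
        rw [lintegral_mul_const _ (by fun_prop), lint_pow n zero_le_one, one_pow]
    _ ≤ ∫⁻ r in Ioc (0 : ℝ) 1,
        volume {x : Fin n → ℝ | (Fin.cons (r - g x) x : Fin (n + 1) → ℝ) ∈ S} := by
        refine setLIntegral_mono' measurableSet_Ioc fun r hr => ?_
        have h1 : volume (r • M) = ENNReal.ofReal (r ^ n) * volume M := by
          rw [Measure.addHaar_smul, Module.finrank_fin_fun, abs_of_nonneg (pow_nonneg hr.1.le n)]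
        rw [← h1]
        refine measure_mono ?_
        rintro _ ⟨x, hx, rfl⟩
        exact h r hr x hx
    _ ≤ _ := setLIntegral_le_lintegral _ _

/-- an upper bound for the volume from slices contained in dilates -/
lemma vol_le_of_slices {S : Set (Fin (n + 1) → ℝ)} (hS : MeasurableSet S) {g : (Fin n → ℝ) → ℝ}
    (hg : Measurable g) {M : Set (Fin n → ℝ)}
    (h1 : ∀ u ∈ S, 0 ≤ u 0 + g (Fin.tail u) ∧ u 0 + g (Fin.tail u) ≤ 1)
    (h : ∀ r ∈ Ioc (0 : ℝ) 1, ∀ x, (Fin.cons (r - g x) x : Fin (n + 1) → ℝ) ∈ S → x ∈ r • M) :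
    volume S ≤ ENNReal.ofReal (1 / (n + 1)) * volume M := by
  rw [vol_shear hS hg]
  calc ∫⁻ r : ℝ, volume {x : Fin n → ℝ | (Fin.cons (r - g x) x : Fin (n + 1) → ℝ) ∈ S}
      ≤ ∫⁻ r : ℝ, (Icc (0 : ℝ) 1).indicator (fun r =>
        volume {x : Fin n → ℝ | (Fin.cons (r - g x) x : Fin (n + 1) → ℝ) ∈ S}) r := by
        refine lintegral_mono fun r => ?_
        by_cases hr : r ∈ Icc (0 : ℝ) 1
        · rw [indicator_of_mem hr]
        · rw [indicator_of_notMem hr]
          have : {x : Fin n → ℝ | (Fin.cons (r - g x) x : Fin (n + 1) → ℝ) ∈ S} = ∅ := by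
            rw [eq_empty_iff_forall_notMem]
            intro x hx
            apply hr
            have h2 := h1 _ hx
            simp only [Fin.cons_zero, Fin.tail_cons, sub_add_cancel] at h2
            exact h2
          rw [this]
          simp
    _ = ∫⁻ r in Icc (0 : ℝ) 1,
        volume {x : Fin n → ℝ | (Fin.cons (r - g x) x : Fin (n + 1) → ℝ) ∈ S} :=
        lintegral_indicator measurableSet_Icc _
    _ = ∫⁻ r in Ioc (0 : ℝ) 1,
        volume {x : Fin n → ℝ | (Fin.cons (r - g x) x : Fin (n + 1) → ℝ) ∈ S} :=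
        (setLIntegral_congr Ioc_ae_eq_Icc).symm
    _ ≤ ∫⁻ r in Ioc (0 : ℝ) 1, ENNReal.ofReal (r ^ n) * volume M := by
        refine setLIntegral_mono' measurableSet_Ioc fun r hr => ?_
        have h1 : volume (r • M) = ENNReal.ofReal (r ^ n) * volume M := by
          rw [Measure.addHaar_smul, Module.finrank_fin_fun, abs_of_nonneg (pow_nonneg hr.1.le n)]
        rw [← h1]
        exact measure_mono fun x hx => h r hr x hx
    _ = ENNReal.ofReal (1 / (n + 1)) * volume M := by
        rw [lintegral_mul_const _ (by fun_prop), lint_pow n zero_le_one, one_pow]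

end Pool.Agent.TH852.RH
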