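import Pool.Agent.TH852.RH.Transfer
import Pool.Agent.H748R2.KB.TUSC
import Pool.Agent.H748R2.KB.TL2
import Pool.Agent.H748R2.KB.TCOV
import Pool.Agent.H748R2.KB.TCHEB
import Pool.Agent.H748R2.KB.TRAD

set_option autoImplicit false

/-!
Powers of a body remove the polynomial factor.
-/

open MeasureTheory Set Pointwise
open scoped ENNReal

namespace Pool.Agent.TH852.RH

open Pool.Agent.H404R2.TH (CB V)
open Pool.Agent.H748R2.KB

variable {n : ℕ} {K : Set (Fin n → ℝ)}

/-- the `i`-th block -/
def blk (m n : ℕ) (i : Fin m) (w : Fin (m * n) → ℝ) : Fin n → ℝ :=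
  fun j => w (finProdFinEquiv (i, j))

/-- the `m`-th power of `K` -/
def pw (m : ℕ) (K : Set (Fin n → ℝ)) : Set (Fin (m * n) → ℝ) :=
  {w | ∀ i : Fin m, blk m n i w ∈ K}

lemma sym_pw (m : ℕ) : sym (pw m K) = pw m (sym K) := by
  ext w
  constructor
  · rintro ⟨h1, h2⟩ i
    exact ⟨h1 i, h2 i⟩
  · intro h
    exact ⟨fun i => (h i).1, fun i => (h i).2⟩

/-- the coordinates -/
def uncur (m n : ℕ) (u : Fin m → Fin n → ℝ) : Fin (m * n) → ℝ :=
  fun k => u (finProdFinEquiv.symm k).1 (finProdFinEquiv.symm k).2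

lemma blk_uncur (m : ℕ) (u : Fin m → Fin n → ℝ) (i : Fin m) : blk m n i (uncur m n u) = u i := by
  funext j
  unfold blk uncur
  rw [Equiv.symm_apply_apply]

lemma uncur_blk (m : ℕ) (w : Fin (m * n) → ℝ) : uncur m n (fun i => blk m n i w) = w := by
  funext k
  unfold blk uncur
  simp only [Prod.mk.eta, Equiv.apply_symm_apply]

lemma uncur_preimage (m : ℕ) : uncur m n ⁻¹' pw m K = univ.pi (fun _ => K) := by
  ext u
  rw [mem_preimage, mem_univ_pi]
  unfold pw
  rw [mem_ofPred_eq]
  simp only [blk_uncur]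

lemma continuous_blk (m n : ℕ) (i : Fin m) : Continuous (blk m n i) :=
  continuous_pi fun _ => continuous_apply _

lemma continuous_uncur (m n : ℕ) : Continuous (uncur m n) :=
  continuous_pi fun k => (continuous_apply (finProdFinEquiv.symm k).2).comp
    (continuous_apply (finProdFinEquiv.symm k).1)

lemma uncur_mp (m n : ℕ) : MeasurePreserving (uncur m n) volume volume := by
  refine ⟨(continuous_uncur m n).measurable, ?_⟩
  symm
  refine Measure.pi_eq fun s hs => ?_
  rw [Measure.map_apply (continuous_uncur m n).measurable (MeasurableSet.univ_pi hs)]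
  have h : uncur m n ⁻¹' (Set.univ.pi s) =
      Set.univ.pi fun i => Set.univ.pi fun j => s (finProdFinEquiv (i, j)) := by
    ext u
    constructor
    · intro hu i _ j _
      have := hu (finProdFinEquiv (i, j)) (mem_univ _)
      unfold uncur at this
      rwa [Equiv.symm_apply_apply] at this
    · intro hu k _
      have := hu (finProdFinEquiv.symm k).1 (mem_univ _) (finProdFinEquiv.symm k).2 (mem_univ _)
      simp only [Prod.mk.eta, Equiv.apply_symm_apply] at this
      exact this
  rw [h, volume_pi_pi]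
  simp_rw [volume_pi_pi]
  rw [← finProdFinEquiv.prod_comp, Fintype.prod_prod_type]

lemma vol_pw (m : ℕ) (hm : MeasurableSet (pw m K)) :
    volume (pw m K) = volume K ^ m := by
  rw [← (uncur_mp m n).measure_preimage hm.nullMeasurableSet, uncur_preimage, volume_pi_pi]
  simp

lemma pw_compact (m : ℕ) (hK : IsCompact K) : IsCompact (pw m K) := by
  have h1 : IsCompact (univ.pi (fun _ : Fin m => K)) := isCompact_univ_pi fun _ => hK
  have h2 := h1.image (continuous_uncur m n)
  rw [← uncur_preimage, image_preimage_eq] at h2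
  · exact h2
  · intro w
    exact ⟨_, uncur_blk m w⟩

lemma pw_cb (m : ℕ) (hK : CB K) : CB (pw m K) := by
  refine ⟨pw_compact m hK.isCompact, ?_, ?_⟩
  · intro u hu v hv a b ha hb hab i
    exact hK.convex (hu i) (hv i) ha hb hab
  · obtain ⟨x, hx⟩ := hK.interior_nonempty
    have ho : IsOpen {w : Fin (m * n) → ℝ | ∀ i : Fin m, blk m n i w ∈ interior K} := by
      have : {w : Fin (m * n) → ℝ | ∀ i : Fin m, blk m n i w ∈ interior K} =
          ⋂ i : Fin m, blk m n i ⁻¹' interior K := by
        ext w; simp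
      rw [this]
      exact isOpen_iInter_of_finite fun i => isOpen_interior.preimage (continuous_blk m n i)
    have hsub : {w : Fin (m * n) → ℝ | ∀ i : Fin m, blk m n i w ∈ interior K} ⊆ pw m K := by
      intro w hw i
      have hw' : ∀ i : Fin m, blk m n i w ∈ interior K := hw
      exact interior_subset (hw' i)
    refine ⟨uncur m n (fun _ => x), interior_maximal hsub ho ?_⟩
    intro i
    rw [blk_uncur]
    exact hx

lemma pw_centroid (m : ℕ) (hK : IsCompact K) (hcen : ∫ x in K, x = 0) :
    ∫ w in pw m K, w = 0 := by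
  have hKm := hK.measurableSet
  have hPm := (pw_compact m hK).measurableSet
  have hint : IntegrableOn (fun w : Fin (m * n) → ℝ => w) (pw m K) :=
    continuous_id.continuousOn.integrableOn_compact (pw_compact m hK)
  have hintK : IntegrableOn (fun x : Fin n → ℝ => x) K :=
    continuous_id.continuousOn.integrableOn_compact hK
  funext k
  have h1 : (∫ w in pw m K, w) k = ∫ w in pw m K, w k := by
    exact ((ContinuousLinearMap.proj (R := ℝ) k :
      (Fin (m * n) → ℝ) →L[ℝ] ℝ).integral_comp_comm hint).symm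
  rw [h1, Pi.zero_apply]
  set i0 := (finProdFinEquiv.symm k).1 with hi0
  set j0 := (finProdFinEquiv.symm k).2 with hj0
  have hcoord : ∫ x in K, x j0 = 0 := by
    have h2 := (ContinuousLinearMap.proj (R := ℝ) j0 :
      (Fin n → ℝ) →L[ℝ] ℝ).integral_comp_comm hintK
    rw [hcen, map_zero] at h2
    exact h2
  -- to the product space
  have hmeas : Measurable ((pw m K).indicator (fun w : Fin (m * n) → ℝ => w k)) :=
    (measurable_pi_apply k).indicator hPm
  have h3 : ∫ w in pw m K, w k = ∫ u : Fin m → Fin n → ℝ, (pw m K).indicator (fun w => w k) (uncur m n u) := by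
    rw [← integral_indicator hPm, ← (uncur_mp m n).map_eq,
      integral_map (continuous_uncur m n).aemeasurable]
    rw [(uncur_mp m n).map_eq]
    exact hmeas.aestronglyMeasurable
  have h4 : ∀ u : Fin m → Fin n → ℝ, (pw m K).indicator (fun w => w k) (uncur m n u) =
      ∏ i : Fin m, K.indicator (fun x => if i = i0 then x j0 else 1) (u i) := by
    intro u
    by_cases hu : uncur m n u ∈ pw m K
    · rw [indicator_of_mem hu]
      have hu' : ∀ i, u i ∈ K := by
        intro i
        have := hu i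
        rwa [blk_uncur] at this
      rw [Finset.prod_congr rfl fun i _ => indicator_of_mem (hu' i) _]
      rw [Finset.prod_ite_eq' Finset.univ i0]
      simp only [Finset.mem_univ, if_true]
      rfl
    · rw [indicator_of_notMem hu]
      have : ∃ i, u i ∉ K := by
        by_contra hne
        push Not at hne
        apply hu
        intro i
        rw [blk_uncur]
        exact hne i
      obtain ⟨i, hi⟩ := this
      exact (Finset.prod_eq_zero (Finset.mem_univ i) (indicator_of_notMem hi _)).symm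
  rw [h3, integral_congr_ae (Filter.Eventually.of_forall h4)]
  have h5 := integral_fintype_prod_volume_eq_prod (𝕜 := ℝ) (ι := Fin m)
    (fun (i : Fin m) (x : Fin n → ℝ) => K.indicator (fun x => if i = i0 then x j0 else 1) x)
  rw [h5]
  refine Finset.prod_eq_zero (Finset.mem_univ i0) ?_
  rw [integral_indicator hKm]
  simp only [if_true]
  exact hcoord

/-- the number `C(2N,N)/C(3N,N)` is at least `(16/27)^N` -/
lemma fact_ineq (N : ℕ) : 16 ^ N * (N.factorial * (3 * N).factorial) ≤ 27 ^ N * (2 * N).factorial ^ 2 := by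
  induction N with
  | zero => simp
  | succ N ih =>
    have e1 : (3 * (N + 1)).factorial = (3 * N + 3) * ((3 * N + 2) * ((3 * N + 1) * (3 * N).factorial)) := by
      rw [show 3 * (N + 1) = 3 * N + 2 + 1 by ring, Nat.factorial_succ, Nat.factorial_succ,
        Nat.factorial_succ]
    have e2 : (2 * (N + 1)).factorial = (2 * N + 2) * ((2 * N + 1) * (2 * N).factorial) := by
      rw [show 2 * (N + 1) = 2 * N + 1 + 1 by ring, Nat.factorial_succ, Nat.factorial_succ]
    rw [e1, e2, Nat.factorial_succ]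
    have h1 : 16 * ((N + 1) * ((3 * N + 3) * ((3 * N + 2) * (3 * N + 1)))) ≤
        27 * ((2 * N + 2) * (2 * N + 1)) ^ 2 := by
      nlinarith [Nat.zero_le N, sq_nonneg (N + 1)]
    calc 16 ^ (N + 1) * ((N + 1) * N.factorial *
          ((3 * N + 3) * ((3 * N + 2) * ((3 * N + 1) * (3 * N).factorial))))
        = (16 ^ N * (N.factorial * (3 * N).factorial)) *
          (16 * ((N + 1) * ((3 * N + 3) * ((3 * N + 2) * (3 * N + 1))))) := by ring
      _ ≤ (27 ^ N * (2 * N).factorial ^ 2) * (27 * ((2 * N + 2) * (2 * N + 1)) ^ 2) :=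
          Nat.mul_le_mul ih h1
      _ = _ := by ring

/-- the largest symmetric part, from the starting files of helper748 -/
theorem kbn (N : ℕ) (hN : 0 < N) (L : Set (Fin N → ℝ)) (hL : CB L) :
    ∃ z, (16 / 27 : ℝ) ^ N * V L ≤ V (sy L z) := by
  have h := t_KBN t_USC t_INT1 t_L2 (t_COV t_BM (t_RAD t_BM) t_CHEB t_INT2) N hN L hL
  obtain ⟨z, hz⟩ := h
  refine ⟨z, ?_⟩
  have h1 : (16 : ℝ) ^ N * (N.factorial * (3 * N).factorial) ≤ 27 ^ N * ((2 * N).factorial : ℝ) ^ 2 := by
    exact_mod_cast fact_ineq N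
  have hB : (0 : ℝ) < (N.factorial : ℝ) * (3 * N).factorial := by positivity
  have hV : 0 ≤ V L := ENNReal.toReal_nonneg
  have h2 : (16 / 27 : ℝ) ^ N * ((N.factorial : ℝ) * (3 * N).factorial) ≤ ((2 * N).factorial : ℝ) ^ 2 := by
    rw [div_pow, div_mul_eq_mul_div, div_le_iff₀ (by positivity)]
    linarith
  have h3 : (N.factorial : ℝ) * (3 * N).factorial * ((16 / 27 : ℝ) ^ N * V L) ≤
      (N.factorial : ℝ) * (3 * N).factorial * V (sy L z) := by
    calc _ = ((16 / 27 : ℝ) ^ N * ((N.factorial : ℝ) * (3 * N).factorial)) * V L := by ring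
      _ ≤ ((2 * N).factorial : ℝ) ^ 2 * V L := mul_le_mul_of_nonneg_right h2 hV
      _ ≤ _ := hz
  exact le_of_mul_le_mul_left h3 hB

lemma le_of_pow_le {x y : ℝ} (hy : 0 ≤ y) (A : ℝ)
    (h : ∀ m : ℕ, 0 < m → x ^ m ≤ A * (m + 1) * y ^ m) : x ≤ y := by
  by_contra hlt
  rw [not_le] at hlt
  rcases hy.eq_or_lt with rfl | hy0
  · have := h 1 one_pos
    simp at this
    linarith
  have hq : 1 < x / y := (one_lt_div hy0).2 hlt
  have h1 : ∀ m : ℕ, 0 < m → (x / y) ^ m ≤ A * (m + 1) := by
    intro m hm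
    rw [div_pow, div_le_iff₀ (by positivity)]
    exact h m hm
  have h2 : Filter.Tendsto (fun m : ℕ => (m : ℝ) ^ 1 / (x / y) ^ m) Filter.atTop (nhds 0) :=
    tendsto_pow_const_div_const_pow_of_one_lt 1 hq
  have h3 : Filter.Tendsto (fun m : ℕ => |A| * (2 * ((m : ℝ) ^ 1 / (x / y) ^ m))) Filter.atTop
      (nhds (|A| * (2 * 0))) := (h2.const_mul 2).const_mul |A|
  rw [mul_zero, mul_zero] at h3
  have h4 := (h3.eventually (gt_mem_nhds (zero_lt_one))).and (Filter.eventually_gt_atTop 0)
  obtain ⟨m, h5, h6⟩ := h4.exists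
  have h7 := h1 m h6
  have hp : 0 < (x / y) ^ m := by positivity
  have h8 : |A| * (2 * (m : ℝ)) < (x / y) ^ m := by
    have h9 : |A| * (2 * ((m : ℝ) ^ 1 / (x / y) ^ m)) = |A| * (2 * (m : ℝ)) / (x / y) ^ m := by
      rw [pow_one]; ring
    rw [h9, div_lt_one hp] at h5
    exact h5
  have hm1 : (1 : ℝ) ≤ m := by exact_mod_cast h6
  have h10 : A * ((m : ℝ) + 1) ≤ |A| * (2 * (m : ℝ)) := by
    calc A * ((m : ℝ) + 1) ≤ |A| * ((m : ℝ) + 1) :=
          mul_le_mul_of_nonneg_right (le_abs_self A) (by positivity)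
      _ ≤ |A| * (2 * (m : ℝ)) := mul_le_mul_of_nonneg_left (by linarith) (abs_nonneg A)
  linarith

/-- a general principle: a lower bound `c ^ N` for the largest symmetric part of all bodies of
dimension `N` implies the lower bound `c ^ n` for the symmetric part centred at the centroid -/
theorem centroid_of_max (c : ℝ) (hc : 0 ≤ c)
    (h : ∀ N : ℕ, 0 < N → ∀ L : Set (Fin N → ℝ), CB L → ∃ z, c ^ N * V L ≤ V (sy L z))
    (hn : 0 < n) (hK : CB K) (hcen : ∫ x in K, x = 0) : c ^ n * V K ≤ V (sym K) := by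
  have hV : 0 ≤ V K := ENNReal.toReal_nonneg
  have hS : 0 ≤ V (sym K) := ENNReal.toReal_nonneg
  refine le_of_pow_le hS (2 * n) fun m hm => ?_
  have hmn : 0 < m * n := Nat.mul_pos hm hn
  have h1 := transfer (K := pw m K) hmn (c ^ (m * n)) (by positivity) (h (m * n) hmn)
    (pw_cb m hK) (pw_centroid m hK.isCompact hcen)
  have h2 : V (pw m K) = V K ^ m := by
    unfold V
    rw [vol_pw m (pw_compact m hK.isCompact).measurableSet,
      ENNReal.toReal_pow]
  have h3 : V (sym (pw m K)) = V (sym K) ^ m := by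
    rw [sym_pw]
    unfold V
    rw [vol_pw m (pw_compact m (sym_compact hK.isCompact)).measurableSet, ENNReal.toReal_pow]
  rw [h2, h3] at h1
  have h4 : (c ^ n * V K) ^ m = c ^ (m * n) * V K ^ m := by
    rw [mul_pow, ← pow_mul, mul_comm n m]
  rw [h4]
  refine h1.trans ?_
  refine mul_le_mul_of_nonneg_right ?_ (by positivity)
  have hn1 : (1 : ℝ) ≤ n := by exact_mod_cast hn
  have hm1 : (1 : ℝ) ≤ m := by exact_mod_cast hm
  push_cast
  nlinarith

/-- **The symmetric part centred at the centroid** has volume at least `(16/27)^n |K|`. -/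
theorem main (hn : 0 < n) (hK : CB K) (hcen : ∫ x in K, x = 0) :
    (16 / 27 : ℝ) ^ n * V K ≤ V (sym K) :=
  centroid_of_max (16 / 27) (by norm_num) kbn hn hK hcen

end Pool.Agent.TH852.RH
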