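import Pool.Agent.TH852.RH.Sep
import Pool.Agent.TH852.RH.Slice

set_option autoImplicit false

/-!
From the largest symmetric part with an arbitrary centre to the symmetric part centred at the
centroid: a factor `2 (n + 1)` is lost.
-/

open MeasureTheory Set Pointwise
open scoped ENNReal

namespace Pool.Agent.TH852.RH

open Pool.Agent.H404R2.TH (CB V)
open Pool.Agent.H748R2.KB

variable {n : ℕ} {K : Set (Fin n → ℝ)}

/-- the centroid is an interior point -/
lemma zero_mem_interior (hK : CB K) (h : ∫ x in K, x = 0) : (0 : Fin n → ℝ) ∈ interior K := by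
  by_contra hn
  obtain ⟨f, hf⟩ := geometric_hahn_banach_open_point hK.convex.interior isOpen_interior hn
  rw [map_zero] at hf
  have hint : IntegrableOn (fun x : Fin n → ℝ => x) K :=
    continuous_id.continuousOn.integrableOn_compact hK.isCompact
  have h1 : ∫ x in K, f x = 0 := by
    have := f.integral_comp_comm hint
    rw [this, h, map_zero]
  have hcl : K ⊆ closure (interior K) := by
    rw [hK.convex.closure_interior_eq_closure_of_nonempty_interior hK.interior_nonempty]
    exact subset_closure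
  have hle : ∀ x ∈ K, f x ≤ 0 := by
    intro x hx
    have hclosed : IsClosed {x | f x ≤ 0} := isClosed_le f.continuous continuous_const
    exact closure_minimal (fun d hd => (hf d hd).le) hclosed (hcl hx)
  have hfi : IntegrableOn (fun x => -f x) K :=
    (f.continuous.neg.continuousOn).integrableOn_compact hK.isCompact
  have h2 : 0 < ∫ x in K, -f x := by
    rw [setIntegral_pos_iff_support_of_nonneg_ae]
    · have hpos : 0 < volume (interior K) := isOpen_interior.measure_pos _ hK.interior_nonempty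
      refine hpos.trans_le (measure_mono ?_)
      intro x hx
      refine ⟨?_, interior_subset hx⟩
      have := hf x hx
      rw [Function.mem_support]
      linarith
    · refine (ae_restrict_iff' hK.isCompact.measurableSet).2 (Filter.Eventually.of_forall ?_)
      intro x hx
      have := hle x hx
      show 0 ≤ -f x
      linarith
    · exact hfi
  rw [integral_neg, h1] at h2
  simp at h2

/-- the symmetric part centred at the origin -/
def sym (K : Set (Fin n → ℝ)) : Set (Fin n → ℝ) := {x | x ∈ K ∧ -x ∈ K}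

lemma sym_compact (hK : IsCompact K) : IsCompact (sym K) := by
  have : sym K = K ∩ -K := by ext x; rfl
  rw [this]
  exact hK.inter_right hK.neg.isClosed

lemma slice_le (hn : 0 < n) (hK : CB K) {s : ℝ} (hs0 : 0 ≤ s) (hs2 : s ≤ 2) :
    volume {x : Fin n → ℝ | x ∈ s • K ∧ -x ∈ (2 - s) • K} ≤ volume (sym K) := by
  set A : Set (Fin n → ℝ) := {x : Fin n → ℝ | x ∈ s • K ∧ -x ∈ (2 - s) • K} with hA
  have hAc : IsCompact A := by
    have : A = s • K ∩ -((2 - s) • K) := by ext x; rfl
    rw [this]
    exact (hK.isCompact.smul s).inter_right (hK.isCompact.smul (2 - s)).neg.isClosed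
  rcases A.eq_empty_or_nonempty with he | hne
  · rw [he]; simp
  have hsub : A + -A ⊆ (2 : ℝ) • sym K := by
    rintro _ ⟨x, hx, y, hy, rfl⟩
    have hy' : -y ∈ A := hy
    rw [mem_smul_set_iff_inv_smul_mem₀ (by norm_num)]
    have key : ∀ p q : Fin n → ℝ, p ∈ s • K → q ∈ (2 - s) • K → (2 : ℝ)⁻¹ • (p + q) ∈ K := by
      intro p q hp hq
      have h1 : p + q ∈ (2 : ℝ) • K := by
        have e : (2 : ℝ) = s + (2 - s) := by ring
        rw [e, hK.convex.add_smul hs0 (by linarith)]
        exact add_mem_add hp hq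
      rwa [mem_smul_set_iff_inv_smul_mem₀ (by norm_num)] at h1
    refine ⟨key x y hx.1 ?_, ?_⟩
    · have := hy'.2
      rwa [neg_neg] at this
    · have e : -((2 : ℝ)⁻¹ • (x + y)) = (2 : ℝ)⁻¹ • (-y + -x) := by
        rw [← smul_neg, neg_add_rev]
      rw [e]
      exact key (-y) (-x) hy'.1 hx.2
  set a := (V A) ^ ((n : ℝ)⁻¹) with ha
  have hV0 : 0 ≤ V A := ENNReal.toReal_nonneg
  have ha0 : 0 ≤ a := Real.rpow_nonneg hV0 _
  have han : a ^ n = V A := Real.rpow_inv_natCast_pow hV0 hn.ne'
  have hneg : V (-A) = V A := by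
    unfold V
    rw [Measure.measure_neg]
  have hbm := t_BM n A (-A) hAc hAc.neg hne hne.neg a a ha0 ha0 han.le (han.trans hneg.symm).le
  have h2 : V (A + -A) ≤ V ((2 : ℝ) • sym K) := V_mono' ((sym_compact hK.isCompact).smul _) hsub
  rw [V_smul' (by norm_num)] at h2
  rw [← two_mul, mul_pow, han] at hbm
  have h3 : V A ≤ V (sym K) := le_of_mul_le_mul_left (hbm.trans h2) (by positivity)
  exact (ENNReal.toReal_le_toReal hAc.measure_ne_top (sym_compact hK.isCompact).measure_ne_top).1 h3

lemma W_two_le (hn : 0 < n) (hK : CB K) : W K ((2 : ℝ) • ce n) ≤ 2 * V (sym K) := by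
  have hc := sy_cone_compact hK.isCompact ((2 : ℝ) • ce n)
  have h : volume (sy (cone K) ((2 : ℝ) • ce n)) ≤ 2 * volume (sym K) := by
    rw [vol_slice hc.measurableSet]
    calc ∫⁻ s : ℝ, volume {x : Fin n → ℝ | (Fin.cons s x : Fin (n + 1) → ℝ) ∈
          sy (cone K) ((2 : ℝ) • ce n)}
        ≤ ∫⁻ s : ℝ, (Icc (0 : ℝ) 2).indicator (fun _ => volume (sym K)) s := by
          refine lintegral_mono fun s => ?_
          have e : ∀ x : Fin n → ℝ, (2 : ℝ) • ce n - (Fin.cons s x : Fin (n + 1) → ℝ) =
              Fin.cons (2 - s) (-x) := by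
            intro x
            funext i
            refine Fin.cases ?_ (fun j => ?_) i
            · simp [ce]
            · simp [ce]
          by_cases hs : s ∈ Icc (0 : ℝ) 2
          · rw [indicator_of_mem hs]
            refine le_trans (measure_mono ?_) (slice_le hn hK hs.1 hs.2)
            rintro x ⟨h1, h2⟩
            rw [mem_cone_cons] at h1
            rw [e, mem_cone_cons] at h2
            exact ⟨h1.2, h2.2⟩
          · rw [indicator_of_notMem hs]
            have : {x : Fin n → ℝ | (Fin.cons s x : Fin (n + 1) → ℝ) ∈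
                sy (cone K) ((2 : ℝ) • ce n)} = ∅ := by
              rw [eq_empty_iff_forall_notMem]
              rintro x ⟨h1, h2⟩
              rw [mem_cone_cons] at h1
              rw [e, mem_cone_cons] at h2
              exact hs ⟨h1.1, by linarith [h2.1]⟩
            rw [this]
            simp
      _ = 2 * volume (sym K) := by
          rw [lintegral_indicator measurableSet_Icc, setLIntegral_const, Real.volume_Icc]
          rw [sub_zero, mul_comm]
          norm_num
  have h2 := ENNReal.toReal_mono (ENNReal.mul_ne_top (by norm_num)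
    (sym_compact hK.isCompact).measure_ne_top) h
  rw [ENNReal.toReal_mul] at h2
  exact h2

lemma bern (m : ℕ) {t : ℝ} (ht : 0 < 1 + t) : 1 - (m : ℝ) * t ≤ (1 / (1 + t)) ^ m := by
  have h1 : 1 + (m : ℝ) * (1 / (1 + t) - 1) ≤ (1 + (1 / (1 + t) - 1)) ^ m :=
    one_add_mul_le_pow (by have := one_div_pos.2 ht; linarith) m
  have h2 : 1 + (1 / (1 + t) - 1) = 1 / (1 + t) := by ring
  rw [h2] at h1
  refine le_trans ?_ h1
  have h3 : -t ≤ 1 / (1 + t) - 1 := by
    rw [le_sub_iff_add_le, le_div_iff₀ ht]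
    nlinarith [sq_nonneg t]
  have h4 := mul_le_mul_of_nonneg_left h3 (Nat.cast_nonneg (α := ℝ) m)
  linarith

/-- the data of the functional -/
structure Fn (K : Set (Fin n → ℝ)) where
  /-- the functional -/
  f : (Fin (n + 1) → ℝ) →L[ℝ] ℝ
  one : f (ce n) = 1
  nonneg : ∀ u ∈ cone K, 0 ≤ f u
  pos : ∀ y ∈ K, 0 < f (Fin.cons 1 y)

namespace Fn

variable (F : Fn K)

/-- the linear part -/
def g (x : Fin n → ℝ) : ℝ := F.f (Fin.cons 0 x)

lemma f_cons (s : ℝ) (x : Fin n → ℝ) : F.f (Fin.cons s x) = s + F.g x := by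
  have e : (Fin.cons s x : Fin (n + 1) → ℝ) = s • ce n + Fin.cons 0 x := by
    funext i
    refine Fin.cases ?_ (fun j => ?_) i
    · simp [ce]
    · simp [ce]
  rw [e, map_add, map_smul, F.one, smul_eq_mul, mul_one]
  rfl

lemma g_add (x y : Fin n → ℝ) : F.g (x + y) = F.g x + F.g y := by
  unfold g
  rw [← map_add]
  congr 1
  funext i
  refine Fin.cases ?_ (fun j => ?_) i
  · simp
  · simp

lemma g_smul (t : ℝ) (x : Fin n → ℝ) : F.g (t • x) = t * F.g x := by
  unfold g
  rw [← smul_eq_mul, ← map_smul]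
  congr 1
  funext i
  refine Fin.cases ?_ (fun j => ?_) i
  · simp
  · simp

lemma g_sub (x y : Fin n → ℝ) : F.g (x - y) = F.g x - F.g y := by
  have h := F.g_add (x - y) y
  rw [sub_add_cancel] at h
  linarith

lemma g_cont : Continuous F.g :=
  F.f.continuous.comp (cont_cons.comp (continuous_const.prodMk continuous_id))

/-- the section of the cone by `f = 1` -/
def sec : Set (Fin n → ℝ) := {x | (Fin.cons (1 - F.g x) x : Fin (n + 1) → ℝ) ∈ cone K}

lemma sg_cont : Continuous (fun x : Fin n → ℝ => (Fin.cons (1 - F.g x) x : Fin (n + 1) → ℝ)) :=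
  cont_cons.comp ((continuous_const.sub F.g_cont).prodMk continuous_id)

lemma smul_sg (r : ℝ) (x : Fin n → ℝ) :
    (Fin.cons (r - F.g (r • x)) (r • x) : Fin (n + 1) → ℝ) = r • Fin.cons (1 - F.g x) x := by
  funext i
  refine Fin.cases ?_ (fun j => ?_) i
  · simp [g_smul]
    ring
  · simp

lemma sec_cb (hK : CB K) (h0 : (0 : Fin n → ℝ) ∈ interior K) : CB F.sec := by
  have hne : K.Nonempty := ⟨0, interior_subset h0⟩
  refine ⟨?_, ?_, ?_⟩
  · refine Metric.isCompact_of_isClosed_isBounded ?_ ?_
    · exact (cone_closed hK.isCompact).preimage F.sg_cont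
    · obtain ⟨y0, hy0, hmin⟩ := hK.isCompact.exists_isMinOn hne
        (show ContinuousOn (fun y => 1 + F.g y) K from
          (continuous_const.add F.g_cont).continuousOn)
      have hδ : 0 < 1 + F.g y0 := by
        have := F.pos y0 hy0
        rwa [f_cons] at this
      obtain ⟨R, hR⟩ := hK.isCompact.isBounded.subset_closedBall (0 : Fin n → ℝ)
      refine (Metric.isBounded_closedBall (x := (0 : Fin n → ℝ))
        (r := 1 / (1 + F.g y0) * |R|)).subset ?_
      intro x hx
      obtain ⟨hs, hx2⟩ := mem_cone_cons.1 hx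
      obtain ⟨y, hy, hyx⟩ := hx2
      have h1 : (1 - F.g x) * (1 + F.g y) = 1 := by
        have h2 : F.g x = (1 - F.g x) * F.g y := by
          conv_lhs => rw [← hyx]
          rw [g_smul]
        linarith
      have h3 : 1 + F.g y0 ≤ 1 + F.g y := hmin hy
      have h4 : 1 - F.g x ≤ 1 / (1 + F.g y0) := by
        rw [le_div_iff₀ hδ]
        calc (1 - F.g x) * (1 + F.g y0) ≤ (1 - F.g x) * (1 + F.g y) :=
              mul_le_mul_of_nonneg_left h3 hs
          _ = 1 := h1
      rw [mem_closedBall_zero_iff, ← hyx]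
      show ‖(1 - F.g x) • y‖ ≤ _
      rw [norm_smul, Real.norm_eq_abs, abs_of_nonneg hs]
      have h5 : ‖y‖ ≤ |R| := (mem_closedBall_zero_iff.1 (hR hy)).trans (le_abs_self R)
      exact mul_le_mul h4 h5 (norm_nonneg _) (by positivity)
  · intro x hx y hy a b ha hb hab
    have h := cone_add hK.convex (cone_smul ha hx) (cone_smul hb hy)
    show (Fin.cons (1 - F.g (a • x + b • y)) (a • x + b • y) : Fin (n + 1) → ℝ) ∈ cone K
    convert h using 1
    funext i
    refine Fin.cases ?_ (fun j => ?_) i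
    · simp [g_smul, g_add]
      linear_combination (-1 : ℝ) * hab
    · simp
  · refine ⟨0, ?_⟩
    have h1 : IsOpen ((fun x : Fin n → ℝ => (Fin.cons (1 - F.g x) x : Fin (n + 1) → ℝ)) ⁻¹'
        interior (cone K)) := isOpen_interior.preimage F.sg_cont
    have h5 : (fun x : Fin n → ℝ => (Fin.cons (1 - F.g x) x : Fin (n + 1) → ℝ)) ⁻¹'
        interior (cone K) ⊆ F.sec := fun x hx => by
      have hx' : (Fin.cons (1 - F.g x) x : Fin (n + 1) → ℝ) ∈ cone K :=
        (interior_subset (s := cone K) : interior (cone K) ⊆ cone K) hx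
      exact hx'
    refine interior_maximal h5 h1 ?_
    have h2 := ce_mem_interior h0
    have h3 : F.g 0 = 0 := by
      have := F.g_smul 0 0
      simpa using this
    show (Fin.cons (1 - F.g 0) 0 : Fin (n + 1) → ℝ) ∈ interior (cone K)
    rw [h3, sub_zero]
    exact h2

/-- the part of the cone below `f = 1` -/
def trunc : Set (Fin (n + 1) → ℝ) := {u | u ∈ cone K ∧ F.f u ≤ 1}

lemma trunc_closed (hK : IsCompact K) : IsClosed F.trunc :=
  (cone_closed hK).inter (isClosed_le F.f.continuous continuous_const)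

lemma f_eq (u : Fin (n + 1) → ℝ) : F.f u = u 0 + F.g (Fin.tail u) := by
  conv_lhs => rw [← Fin.cons_self_tail u]
  rw [f_cons]

lemma trunc_le (hK : IsCompact K) :
    volume F.trunc ≤ ENNReal.ofReal (1 / (n + 1)) * volume F.sec := by
  refine vol_le_of_slices (F.trunc_closed hK).measurableSet F.g_cont.measurable ?_ ?_
  · intro u hu
    rw [← f_eq]
    exact ⟨F.nonneg u hu.1, hu.2⟩
  · intro r hr x hx
    rw [mem_smul_set_iff_inv_smul_mem₀ hr.1.ne']
    have h := cone_smul (inv_nonneg.2 hr.1.le) hx.1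
    show (Fin.cons (1 - F.g (r⁻¹ • x)) (r⁻¹ • x) : Fin (n + 1) → ℝ) ∈ cone K
    convert h using 1
    funext i
    refine Fin.cases ?_ (fun j => ?_) i
    · simp only [g_smul, Fin.cons_zero, Pi.smul_apply, smul_eq_mul]
      rw [mul_sub, inv_mul_cancel₀ hr.1.ne']
    · simp

lemma le_trunc (hK : CB K) (hcen : ∫ x in K, x = 0) :
    ENNReal.ofReal (1 / (n + 1)) * volume K ≤ volume F.trunc := by
  have hKm := hK.isCompact.measurableSet
  have hpos : ∀ y ∈ K, 0 < 1 + F.g y := by
    intro y hy
    have := F.pos y hy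
    rwa [f_cons] at this
  -- the slices
  have hmeas : Measurable (fun p : ℝ × (Fin n → ℝ) => {q : ℝ × (Fin n → ℝ) | q.2 ∈ K ∧
      q.1 * (1 + F.g q.2) ≤ 1 ∧ 0 < q.1}.indicator (fun q => ENNReal.ofReal (q.1 ^ n)) p) := by
    refine Measurable.indicator (by fun_prop) ?_
    refine MeasurableSet.inter (measurable_snd hKm) (MeasurableSet.inter ?_ ?_)
    · exact measurableSet_le (measurable_fst.mul
        (measurable_const.add (F.g_cont.measurable.comp measurable_snd))) measurable_const
    · exact measurableSet_lt measurable_const measurable_fst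
  have h1 : ∫⁻ s : ℝ, ∫⁻ y : Fin n → ℝ, {q : ℝ × (Fin n → ℝ) | q.2 ∈ K ∧
      q.1 * (1 + F.g q.2) ≤ 1 ∧ 0 < q.1}.indicator (fun q => ENNReal.ofReal (q.1 ^ n)) (s, y) ≤
      volume F.trunc := by
    rw [vol_slice (F.trunc_closed hK.isCompact).measurableSet]
    refine lintegral_mono fun s => ?_
    by_cases hs : 0 < s
    · set A : Set (Fin n → ℝ) := {y | y ∈ K ∧ s * (1 + F.g y) ≤ 1} with hA
      have hAm : MeasurableSet A := hKm.inter (measurableSet_le (measurable_const.mul
        (measurable_const.add F.g_cont.measurable)) measurable_const)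
      have h2 : ∫⁻ y : Fin n → ℝ, {q : ℝ × (Fin n → ℝ) | q.2 ∈ K ∧
          q.1 * (1 + F.g q.2) ≤ 1 ∧ 0 < q.1}.indicator (fun q => ENNReal.ofReal (q.1 ^ n)) (s, y) =
          ENNReal.ofReal (s ^ n) * volume A := by
        rw [← lintegral_indicator_const hAm]
        refine lintegral_congr fun y => ?_
        by_cases hy : y ∈ A
        · rw [indicator_of_mem hy, indicator_of_mem]
          exact ⟨hy.1, hy.2, hs⟩
        · rw [indicator_of_notMem hy, indicator_of_notMem]
          rintro ⟨h3, h4, _⟩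
          exact hy ⟨h3, h4⟩
      have h3 : volume (s • A) = ENNReal.ofReal (s ^ n) * volume A := by
        rw [Measure.addHaar_smul, Module.finrank_fin_fun, abs_of_nonneg (pow_nonneg hs.le n)]
      show ∫⁻ y : Fin n → ℝ, _ ≤ _
      rw [h2, ← h3]
      refine measure_mono ?_
      rintro _ ⟨y, hy, rfl⟩
      have e : (Fin.cons s (s • y) : Fin (n + 1) → ℝ) = s • Fin.cons 1 y := by
        funext i
        refine Fin.cases ?_ (fun j => ?_) i
        · simp
        · simp
      have hm : (Fin.cons 1 y : Fin (n + 1) → ℝ) ∈ cone K :=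
        mem_cone_cons.2 ⟨zero_le_one, by rw [one_smul]; exact hy.1⟩
      refine ⟨?_, ?_⟩
      · show (Fin.cons s (s • y) : Fin (n + 1) → ℝ) ∈ cone K
        rw [e]
        exact cone_smul hs.le hm
      · show F.f (Fin.cons s (s • y)) ≤ 1
        rw [e, map_smul, f_cons, smul_eq_mul]
        exact hy.2
    · have hz : (fun y : Fin n → ℝ => {q : ℝ × (Fin n → ℝ) | q.2 ∈ K ∧
          q.1 * (1 + F.g q.2) ≤ 1 ∧ 0 < q.1}.indicator (fun q => ENNReal.ofReal (q.1 ^ n)) (s, y)) =
          fun _ => 0 := by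
        funext y
        rw [indicator_of_notMem]
        rintro ⟨_, _, h4⟩
        exact hs h4
      rw [hz]
      simp
  refine le_trans ?_ h1
  rw [lintegral_lintegral_swap hmeas.aemeasurable]
  have h2 : ∀ y : Fin n → ℝ, ∫⁻ s : ℝ, {q : ℝ × (Fin n → ℝ) | q.2 ∈ K ∧
      q.1 * (1 + F.g q.2) ≤ 1 ∧ 0 < q.1}.indicator (fun q => ENNReal.ofReal (q.1 ^ n)) (s, y) =
      K.indicator (fun y => ENNReal.ofReal ((1 / (1 + F.g y)) ^ (n + 1) / (n + 1))) y := by
    intro y
    by_cases hy : y ∈ K
    · have hp := hpos y hy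
      rw [indicator_of_mem hy, ← lint_pow n (by positivity : (0:ℝ) ≤ 1 / (1 + F.g y)),
        ← lintegral_indicator measurableSet_Ioc]
      refine lintegral_congr fun s => ?_
      by_cases hs : s ∈ Ioc (0 : ℝ) (1 / (1 + F.g y))
      · rw [indicator_of_mem hs, indicator_of_mem]
        refine ⟨hy, ?_, hs.1⟩
        have h3 := hs.2
        rwa [le_div_iff₀ hp] at h3
      · rw [indicator_of_notMem hs, indicator_of_notMem]
        rintro ⟨_, h4, h5⟩
        refine hs ⟨h5, ?_⟩
        rw [le_div_iff₀ hp]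
        exact h4
    · rw [indicator_of_notMem hy]
      have hz : (fun s : ℝ => {q : ℝ × (Fin n → ℝ) | q.2 ∈ K ∧
          q.1 * (1 + F.g q.2) ≤ 1 ∧ 0 < q.1}.indicator (fun q => ENNReal.ofReal (q.1 ^ n)) (s, y)) =
          fun _ => 0 := by
        funext s
        rw [indicator_of_notMem]
        rintro ⟨h3, _, _⟩
        exact hy h3
      rw [hz]
      simp
  rw [lintegral_congr h2, lintegral_indicator hKm]
  have hcontK : ContinuousOn (fun y => (1 / (1 + F.g y)) ^ (n + 1) / ((n : ℝ) + 1)) K := by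
    refine ContinuousOn.div_const (ContinuousOn.pow ?_ _) _
    refine ContinuousOn.div continuousOn_const (continuous_const.add F.g_cont).continuousOn ?_
    intro y hy
    exact (hpos y hy).ne'
  have hi1 : IntegrableOn (fun y => (1 / (1 + F.g y)) ^ (n + 1) / ((n : ℝ) + 1)) K :=
    hcontK.integrableOn_compact hK.isCompact
  rw [← ofReal_integral_eq_lintegral_ofReal hi1]
  · have hgL : ∫ y in K, F.g y = 0 := by
      let gL : (Fin n → ℝ) →ₗ[ℝ] ℝ := ⟨⟨F.g, F.g_add⟩, F.g_smul⟩
      have hint : IntegrableOn (fun x : Fin n → ℝ => x) K :=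
        continuous_id.continuousOn.integrableOn_compact hK.isCompact
      have h5 := gL.toContinuousLinearMap.integral_comp_comm hint
      rw [hcen, map_zero] at h5
      exact h5
    have hi2 : IntegrableOn (fun y => F.g y) K :=
      F.g_cont.continuousOn.integrableOn_compact hK.isCompact
    have hi3 : IntegrableOn (fun y => (1 - ((n + 1 : ℕ) : ℝ) * F.g y) / ((n : ℝ) + 1)) K :=
      ((continuous_const.sub (continuous_const.mul F.g_cont)).div_const _).continuousOn.integrableOn_compact
        hK.isCompact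
    haveI : IsFiniteMeasure (volume.restrict K) :=
      ⟨by rw [Measure.restrict_apply_univ]; exact hK.isCompact.measure_lt_top⟩
    have h6 : ∫ y in K, (1 - ((n + 1 : ℕ) : ℝ) * F.g y) / ((n : ℝ) + 1) = V K / (n + 1) := by
      rw [integral_div, integral_sub (integrable_const _) (hi2.const_mul _),
        integral_const_mul, hgL, mul_zero, sub_zero]
      simp [V, Measure.real]
    have h7 : V K / (n + 1) ≤ ∫ y in K, (1 / (1 + F.g y)) ^ (n + 1) / ((n : ℝ) + 1) := by
      rw [← h6]
      refine setIntegral_mono_on hi3 hi1 hKm fun y hy => ?_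
      exact div_le_div_of_nonneg_right (bern (n + 1) (hpos y hy)) (by positivity)
    have h8 : ENNReal.ofReal (1 / (n + 1)) * volume K = ENNReal.ofReal (V K / (n + 1)) := by
      rw [← ENNReal.ofReal_toReal hK.isCompact.measure_ne_top, ← ENNReal.ofReal_mul (by positivity)]
      congr 1
      unfold V
      ring
    rw [h8]
    exact ENNReal.ofReal_le_ofReal h7
  · refine (ae_restrict_iff' hKm).2 (Filter.Eventually.of_forall fun y hy => ?_)
    have := hpos y hy
    show 0 ≤ (1 / (1 + F.g y)) ^ (n + 1) / ((n : ℝ) + 1)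
    positivity

lemma V_le_sec (hK : CB K) (h0 : (0 : Fin n → ℝ) ∈ interior K) (hcen : ∫ x in K, x = 0) :
    V K ≤ V F.sec := by
  have h1 := (F.le_trunc hK hcen).trans (F.trunc_le hK.isCompact)
  have hs := F.sec_cb hK h0
  have h2 := ENNReal.toReal_mono (ENNReal.mul_ne_top ENNReal.ofReal_ne_top
    hs.isCompact.measure_ne_top) h1
  rw [ENNReal.toReal_mul, ENNReal.toReal_mul, ENNReal.toReal_ofReal (by positivity)] at h2
  exact le_of_mul_le_mul_left h2 (by positivity)

/-- symmetric parts of the section against order intervals -/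
lemma sy_sec_le (hK : CB K) (w : Fin n → ℝ)
    (hW : ∀ z ∈ cone K, F.f z ≤ 2 → W K z ≤ W K ((2 : ℝ) • ce n)) :
    V (sy F.sec w) ≤ (n + 1) * W K ((2 : ℝ) • ce n) := by
  rcases (sy F.sec w).eq_empty_or_nonempty with he | ⟨x0, hx0⟩
  · rw [he]
    have h1 : V (∅ : Set (Fin n → ℝ)) = 0 := by simp [V]
    rw [h1]
    have := W_nonneg (K := K) ((2 : ℝ) • ce n)
    positivity
  set z : Fin (n + 1) → ℝ := Fin.cons (2 - F.g w) w with hz
  have hsum : ∀ x, (Fin.cons (1 - F.g x) x : Fin (n + 1) → ℝ) +
      Fin.cons (1 - F.g (w - x)) (w - x) = z := by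
    intro x
    rw [hz]
    funext i
    refine Fin.cases ?_ (fun j => ?_) i
    · simp [g_sub]
      ring
    · simp
  have hzc : z ∈ cone K := by
    rw [← hsum x0]
    exact cone_add hK.convex hx0.1 hx0.2
  have hfz : F.f z ≤ 2 := by
    rw [hz, f_cons]
    linarith
  have hcomp := sy_cone_compact hK.isCompact z
  have hge := vol_ge_of_slices (S := sy (cone K) z) hcomp.measurableSet F.g_cont.measurable
    (M := sy F.sec w) (by
      intro r hr x hx
      rw [F.smul_sg]
      refine ⟨cone_smul hr.1.le hx.1, ?_⟩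
      have e : z - r • (Fin.cons (1 - F.g x) x : Fin (n + 1) → ℝ) =
          (1 - r) • (Fin.cons (1 - F.g x) x : Fin (n + 1) → ℝ) +
            Fin.cons (1 - F.g (w - x)) (w - x) := by
        rw [← hsum x, sub_smul, one_smul]
        abel
      show z - r • (Fin.cons (1 - F.g x) x : Fin (n + 1) → ℝ) ∈ cone K
      rw [e]
      exact cone_add hK.convex (cone_smul (by linarith [hr.2]) hx.1) hx.2)
  have h2 := ENNReal.toReal_mono hcomp.measure_ne_top hge
  rw [ENNReal.toReal_mul, ENNReal.toReal_ofReal (by positivity)] at h2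
  have h3 : 1 / ((n : ℝ) + 1) * V (sy F.sec w) ≤ W K z := h2
  have h4 := h3.trans (hW z hzc hfz)
  have h5 : (0 : ℝ) < (n : ℝ) + 1 := by positivity
  rw [one_div, inv_mul_le_iff₀ h5] at h4
  exact h4

end Fn

/-- **Transfer**: a lower bound for the largest symmetric part of all bodies gives a lower bound
for the symmetric part centred at the centroid. -/
theorem transfer (hn : 0 < n) (a : ℝ) (ha : 0 ≤ a)
    (h : ∀ L : Set (Fin n → ℝ), CB L → ∃ z, a * V L ≤ V (sy L z))
    (hK : CB K) (hcen : ∫ x in K, x = 0) : a * V K ≤ 2 * (n + 1) * V (sym K) := by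
  have h0 := zero_mem_interior hK hcen
  obtain ⟨f, h1, h2, h3, h4⟩ := exists_func hK.isCompact hK.convex h0
  let F : Fn K := ⟨f, h1, h2, h4⟩
  obtain ⟨w, hw⟩ := h F.sec (F.sec_cb hK h0)
  have h5 := F.V_le_sec hK h0 hcen
  have h6 := F.sy_sec_le hK w h3
  have h7 := W_two_le hn hK
  have h8 : (0 : ℝ) ≤ (n : ℝ) + 1 := by positivity
  calc a * V K ≤ a * V F.sec := mul_le_mul_of_nonneg_left h5 ha
    _ ≤ V (sy F.sec w) := hw
    _ ≤ (n + 1) * W K ((2 : ℝ) • ce n) := h6
    _ ≤ (n + 1) * (2 * V (sym K)) := mul_le_mul_of_nonneg_left h7 h8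
    _ = _ := by ring

end Pool.Agent.TH852.RH
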